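import Mathlib

set_option autoImplicit false
set_option maxSynthPendingDepth 3

namespace Pool.Agent.Results.MP_fd0bc0_an.Counter

open MeasureTheory Filter

noncomputable abbrev L2 := Lp ℂ 2 (volume : Measure ℝ)

def IsKernel (k : ℝ → ℝ → ℂ) : Prop :=
  AEStronglyMeasurable (Function.uncurry k) (volume.prod volume) ∧ ∀ᵐ x, MemLp (k x) 2 volume

def IsCarleman (A : L2 →ₗ.[ℂ] L2) : Prop :=
  ∃ k, IsKernel k ∧ ∀ f : A.domain, ∀ᵐ x, A f x = ∫ y, k x y * f.1 y

noncomputable def T (k : ℝ → ℝ → ℂ) (hk : ∀ x, MemLp (k x) 2 volume) : L2 →ₗ[ℂ] ℝ → ℂ where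
  toFun f x := ∫ y, k x y * f y
  map_add' f g := funext fun x => by
    refine (integral_congr_ae ((Lp.coeFn_add f g).mono fun y hy => ?_)).trans (integral_add
      ((hk x).integrable_mul (Lp.memLp f)) ((hk x).integrable_mul (Lp.memLp g)))
    simp only [hy, Pi.add_apply, mul_add]
  map_smul' c f := funext fun x => by
    rw [RingHom.id_apply, Pi.smul_apply, smul_eq_mul, ← integral_const_mul]
    refine integral_congr_ae ((Lp.coeFn_smul c f).mono fun y hy => ?_)
    simp only [hy, Pi.smul_apply, smul_eq_mul, mul_left_comm]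

def dom (k : ℝ → ℝ → ℂ) (hk : ∀ x, MemLp (k x) 2 volume) : Submodule ℂ L2 where
  carrier := {f | MemLp (T k hk f) 2 volume}
  add_mem' h h' := by rw [Set.mem_ofPred_eq, map_add]; exact MemLp.add h h'
  zero_mem' := by rw [Set.mem_ofPred_eq, map_zero]; exact MemLp.zero
  smul_mem' c f h := by rw [Set.mem_ofPred_eq, map_smul]; exact MemLp.const_smul h c

lemma dom_mem {k : ℝ → ℝ → ℂ} {hk : ∀ x, MemLp (k x) 2 volume} (f : dom k hk) :
    MemLp (T k hk f) 2 volume := f.2

noncomputable def op (k : ℝ → ℝ → ℂ) (hk : ∀ x, MemLp (k x) 2 volume) : L2 →ₗ.[ℂ] L2 where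
  domain := dom k hk
  toFun :=
    { toFun := fun f => (dom_mem f).toLp
      map_add' := fun f g => by
        rw [← MemLp.toLp_add]
        exact MemLp.toLp_congr _ _ (by rw [Submodule.coe_add, map_add])
      map_smul' := fun c f => by
        rw [RingHom.id_apply, ← MemLp.toLp_const_smul]
        exact MemLp.toLp_congr _ _ (by rw [Submodule.coe_smul, map_smul]) }

lemma op_ae (k : ℝ → ℝ → ℂ) (hk : ∀ x, MemLp (k x) 2 volume) (f : (op k hk).domain) :
    ∀ᵐ x, op k hk f x = ∫ y, k x y * f.1 y := (dom_mem f).coeFn_toLp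

/-- Carleman operators `A`, `B` on `L²(ℝ)` such that no Carleman kernel represents `AB`. -/
theorem result : ∃ A B : L2 →ₗ.[ℂ] L2, IsCarleman A ∧ IsCarleman B ∧ A.domain = ⊤ ∧
    ¬ ∃ k, IsKernel k ∧ ∀ (f : B.domain) (h : B f ∈ A.domain),
      ∀ᵐ x, A ⟨B f, h⟩ x = ∫ y, k x y * f.1 y := by
  let S : ℤ → Set ℝ := fun n => Set.Ico n (n + 1)
  have hS : ∀ n, MeasurableSet (S n) := fun n => measurableSet_Ico
  have hv : ∀ n, volume (S n) = 1 := fun n => by simp [S]
  have hm : ∀ n x, x ∈ S n ↔ ⌊x⌋ = n := fun n x => Int.floor_eq_iff.symm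
  have hL : ∀ n (c : ℂ), MemLp ((S n).indicator fun _ => c) 2 volume := fun n c =>
    memLp_indicator_const 2 (hS n) c (Or.inr (by simp [hv]))
  let φ : ℝ → ℝ := fun y => Real.exp (-1 * y ^ 2)
  have hφc : Continuous φ := by fun_prop
  have hφ : MemLp (fun y => (φ y : ℂ)) 2 volume := MemLp.ofReal
    ((memLp_two_iff_integrable_sq hφc.aestronglyMeasurable).2
      ((integrable_exp_neg_mul_sq two_pos).congr (Eventually.of_forall fun y => by
        simp only [φ, ← Real.exp_nat_mul]; congr 1; push_cast; ring)))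
  let c : ℤ → ℂ := fun n => ∫ y in S n, (φ y : ℂ)
  have hc : ∀ n, c n ≠ 0 := fun n => by
    simp only [c, integral_complex_ofReal, Complex.ofReal_ne_zero]
    refine ((setIntegral_pos_iff_support_of_nonneg_ae (Eventually.of_forall fun y =>
      (Real.exp_pos _).le) (integrable_exp_neg_mul_sq one_pos).integrableOn).2 ?_).ne'
    rw [Function.support_eq_univ fun y => (Real.exp_pos _).ne', Set.univ_inter, hv]
    exact one_pos
  let kA : ℝ → ℝ → ℂ := fun x y => (S 0).indicator (fun _ => 1) x * φ y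
  let kB : ℝ → ℝ → ℂ := fun x => (S ⌊x⌋).indicator fun _ => ⌊x⌋ / c ⌊x⌋
  have hA : ∀ x, MemLp (kA x) 2 volume := fun x => hφ.const_mul _
  have hB : ∀ x, MemLp (kB x) 2 volume := fun x => hL _ _
  have TA : ∀ g : L2, T kA hA g = (S 0).indicator fun _ => ∫ y, φ y * g y := fun g =>
    funext fun x => by by_cases h : x ∈ S 0 <;> simp [T, kA, h]
  have dA : ∀ g, g ∈ (op kA hA).domain := fun g => show MemLp (T kA hA g) 2 volume from
    TA g ▸ hL _ _
  refine ⟨op kA hA, op kB hB, ⟨kA, ⟨Measurable.aestronglyMeasurable ?_, Eventually.of_forall hA⟩,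
    op_ae _ _⟩, ⟨kB, ⟨Measurable.aestronglyMeasurable ?_, Eventually.of_forall hB⟩, op_ae _ _⟩,
    eq_top_iff.2 fun g _ => dA g, fun ⟨k, hk, H⟩ => ?_⟩
  · exact ((measurable_const.indicator (hS 0)).comp measurable_fst).mul
      ((Complex.continuous_ofReal.comp hφc).measurable.comp measurable_snd)
  · have : Function.uncurry kB = (fun p : ℤ × ℤ => if p.2 = p.1 then p.1 / c p.1 else 0) ∘
        fun p : ℝ × ℝ => (⌊p.1⌋, ⌊p.2⌋) := funext fun p => by
      simp [kB, Set.indicator_apply, hm, Function.uncurry]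
    rw [this]
    exact (measurable_of_countable _).comp (by fun_prop)
  let E : ℤ → L2 := fun n => (hL n 1).toLp
  have hE : ∀ n, E n =ᵐ[volume] (S n).indicator fun _ => 1 := fun n => MemLp.coeFn_toLp _
  have TB : ∀ n, T kB hB (E n) = (S n).indicator fun _ => n / c n := fun n => funext fun x => by
    refine (integral_congr_ae (g := (S n).indicator fun _ =>
      (S n).indicator (fun _ => n / c n) x) ((hE n).mono fun y hy => ?_)).trans ?_
    · simp only [hy, kB, Set.indicator_apply, hm]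
      by_cases h : ⌊y⌋ = n <;> by_cases h' : ⌊x⌋ = n <;> simp [h, h', Ne.symm]
    · rw [integral_indicator_const _ (hS n), Measure.real, hv]; simp
  have dB : ∀ n, E n ∈ (op kB hB).domain := fun n => show MemLp (T kB hB _) 2 volume from
    TB n ▸ hL _ _
  have h1 : ∀ n : ℤ, ∀ᵐ x, x ∈ S 0 → (n : ℂ) = ∫ y, k x y * E n y := fun n => by
    filter_upwards [H ⟨_, dB n⟩ (dA _), op_ae kA hA ⟨_, dA (op kB hB ⟨_, dB n⟩)⟩] with x h2 h3 h4
    rw [← h2, h3]
    refine Eq.trans ?_ ((congrFun (TA _) x).trans (Set.indicator_of_mem h4 _)).symm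
    rw [integral_congr_ae (g := (S n).indicator fun y => φ y * (n / c n))
      ((op_ae kB hB ⟨_, dB n⟩).mono fun y hy => ?_), integral_indicator (hS n), integral_mul_const,
      mul_div_cancel₀ _ (hc n)]
    simp only [hy]
    rw [show ∫ z, kB y z * E n z = _ from congrFun (TB n) y]
    by_cases h : y ∈ S n <;> simp [h]
  obtain ⟨x, hx, h2, h3⟩ := Measure.exists_mem_of_measure_ne_zero_of_ae (s := S 0) (by simp [hv])
    (ae_restrict_of_ae ((ae_all_iff.2 h1).and hk.2))
  have h4 := (memLp_two_iff_integrable_sq_norm h3.1).1 h3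
  obtain ⟨n, hn⟩ := exists_nat_gt (1 + ∫ y, ‖k x y‖ ^ 2)
  have h5 := (integrable_indicator_iff (hS n)).2
    (integrableOn_const (C := (1 : ℝ)) (μ := volume) (by simp [hv]))
  have h6 := norm_integral_le_of_norm_le (f := fun y => k x y * E n y) (h5.add h4)
    ((hE n).mono fun y hy => by
      rw [hy, Pi.add_apply]
      by_cases h : y ∈ S n
      · simp only [h, Set.indicator_of_mem, mul_one]; nlinarith [sq_nonneg (‖k x y‖ - 1)]
      · simp [h])
  rw [← h2 n hx, integral_add' h5 h4, integral_indicator_const _ (hS n), Measure.real, hv] at h6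
  simp at h6
  linarith

end Pool.Agent.Results.MP_fd0bc0_an.Counter
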